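import Pool.Agent.W544.K3.Defs

/-!
# K3-LIE
-/

set_option autoImplicit false

namespace Pool.Agent.W249.K3

open Module Finset Pool.Agent.W544.K3

theorem lie : S_lie := by
  intro V _ _ k t x y hx hy v
  set F : Fin k → Fin k → ℝ := fun j i =>
    t (Function.update (Function.update v j (y (v j))) i (x (Function.update v j (y (v j)) i)))
    with hF
  set G : Fin k → Fin k → ℝ := fun j i =>
    t (Function.update (Function.update v j (x (v j))) i (y (Function.update v j (x (v j)) i)))
    with hG
  have h1 : ∑ j, ∑ i, F j i = 0 := sum_eq_zero fun j _ => hx _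
  have h2 : ∑ j, ∑ i, G j i = 0 := sum_eq_zero fun j _ => hy _
  have h3 : ∀ i j, i ≠ j → F j i = G i j := by
    intro i j hij
    simp only [hF, hG]
    rw [Function.update_of_ne hij, Function.update_of_ne hij.symm, Function.update_comm hij]
  have h4 : ∑ j, (F j j - G j j) = 0 := by
    have h5 : ∑ j, ∑ i, (F j i - G i j) = ∑ j, (F j j - G j j) := by
      refine sum_congr rfl fun j _ => ?_
      refine sum_eq_single j (fun i _ hij => ?_) (fun h => absurd (mem_univ j) h)
      rw [h3 i j hij, sub_self]
    rw [← h5]
    simp only [sum_sub_distrib]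
    rw [h1, sum_comm, h2, sub_zero]
  rw [← h4]
  refine sum_congr rfl fun j _ => ?_
  simp only [hF, hG, Function.update_self, Function.update_idem]
  rw [← t.map_update_sub]
  rfl

end Pool.Agent.W249.K3
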